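import Pool.Agent.Lib.MP_d28c7d_co.Main

set_option autoImplicit false

namespace Pool.Agent.Results.MP_d28c7d_co.LimitProb

/-- The probability that `Av(π)` is unsplittable, for a uniformly random `π ∈ S_n`,
tends to `exp (-2)`. -/
theorem result :
    Filter.Tendsto Pool.Agent.Lib.MP_d28c7d_co.probUnsplittable Filter.atTop
      (nhds (Real.exp (-2))) :=
  Pool.Agent.Lib.MP_d28c7d_co.main

end Pool.Agent.Results.MP_d28c7d_co.LimitProb
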